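import Pool.Graph.R_seed8.Y872.L.Defs
import Pool.Graph.R_seed8.H341R2.WeilSharp

/-!
# Patterns of quadratic residues modulo one prime (`S_PAT` of the project LT)
-/

set_option autoImplicit false

namespace Pool.Agent.H380.LT

open Finset Polynomial Pool.Agent.Y872.L

section

variable {p : ℕ} [Fact p.Prime]

/-- the quadratic character of `ZMod p`, with real values -/
noncomputable def ch (p : ℕ) [Fact p.Prime] (x : ZMod p) : ℝ := (quadraticChar (ZMod p) x : ℝ)

theorem ch_cases (x : ZMod p) : ch p x = 0 ∨ ch p x = 1 ∨ ch p x = -1 := by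
  unfold ch
  by_cases h : x = 0
  · left; rw [h]; simp
  · rcases quadraticChar_dichotomy h with h | h <;> rw [h] <;> simp

theorem ch_zero : ch p 0 = 0 := by unfold ch; simp

theorem ch_eq_zero {x : ZMod p} : ch p x = 0 ↔ x = 0 := by
  unfold ch
  rw [Int.cast_eq_zero, quadraticChar_eq_zero_iff]

theorem ch_mul (x y : ZMod p) : ch p (x * y) = ch p x * ch p y := by
  unfold ch; rw [map_mul]; push_cast; ring

theorem sum_ch (hp : p ≠ 2) : ∑ x : ZMod p, ch p x = 0 := by
  have h : ∑ x : ZMod p, quadraticChar (ZMod p) x = 0 :=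
    quadraticChar_sum_zero (by rw [ZMod.ringChar_zmod_n]; exact hp)
  unfold ch
  exact_mod_cast h

theorem sum_ch_add (hp : p ≠ 2) (a : ZMod p) : ∑ x : ZMod p, ch p (x + a) = 0 := by
  rw [← sum_ch hp]
  exact Fintype.sum_equiv (Equiv.addRight a) _ _ fun x => rfl

theorem ch_sq {x : ZMod p} (hx : x ≠ 0) : ch p x * ch p x = 1 := by
  rcases ch_cases x with h | h | h
  · exact absurd (ch_eq_zero.1 h) hx
  · rw [h]; norm_num
  · rw [h]; norm_num

/-- the pair sums: `∑ χ(x) χ(x+a) = -1` -/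
theorem sum_pair (hp : p ≠ 2) {a : ZMod p} (ha : a ≠ 0) :
    ∑ x : ZMod p, ch p x * ch p (x + a) = -1 := by
  -- for `x ≠ 0`: `χ(x) χ(x+a) = χ(1 + a/x)`
  have h1 : ∀ x : ZMod p, x ≠ 0 → ch p x * ch p (x + a) = ch p (1 + a * x⁻¹) := by
    intro x hx
    have h2 : x + a = x * (1 + a * x⁻¹) := by field_simp
    rw [h2, ch_mul, ← mul_assoc, ch_sq hx, one_mul]
  have h3 : ∑ x : ZMod p, ch p x * ch p (x + a) =
      ∑ x ∈ univ.erase (0 : ZMod p), ch p (1 + a * x⁻¹) := by
    rw [← Finset.sum_erase_add _ _ (mem_univ (0 : ZMod p)), ch_zero, zero_mul, add_zero]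
    exact Finset.sum_congr rfl fun x hx => h1 x (Finset.ne_of_mem_erase hx)
  have h4 : ∑ x ∈ univ.erase (0 : ZMod p), ch p (1 + a * x⁻¹) =
      ∑ y ∈ univ.erase (1 : ZMod p), ch p y := by
    refine Finset.sum_bij' (fun x _ => 1 + a * x⁻¹) (fun y _ => a * (y - 1)⁻¹) ?_ ?_ ?_ ?_ ?_
    · intro x hx
      have hx0 := Finset.ne_of_mem_erase hx
      simp only [mem_erase, mem_univ, and_true]
      intro h
      have : a * x⁻¹ = 0 := by linear_combination h
      rcases mul_eq_zero.1 this with h | h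
      · exact ha h
      · exact hx0 (inv_eq_zero.1 h)
    · intro y hy
      have hy0 := Finset.ne_of_mem_erase hy
      simp only [mem_erase, mem_univ, and_true]
      exact mul_ne_zero ha (inv_ne_zero (sub_ne_zero.2 hy0))
    · intro x hx
      have hx0 := Finset.ne_of_mem_erase hx
      simp only [add_sub_cancel_left]
      field_simp
    · intro y hy
      have hy0 : y - 1 ≠ 0 := sub_ne_zero.2 (Finset.ne_of_mem_erase hy)
      field_simp
      ring
    · intro x hx
      rfl
  rw [h3, h4]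
  have h5 := Finset.sum_erase_add univ (fun y => ch p y) (mem_univ (1 : ZMod p))
  rw [sum_ch hp] at h5
  have h6 : ch p 1 = 1 := by unfold ch; simp
  linarith

theorem ch_poly (a b : ZMod p) (x : ZMod p) :
    ((quadraticChar (ZMod p) ((X * (X + C a) * (X + C b) : (ZMod p)[X]).eval x) : ℤ) : ℝ) =
      ch p x * ch p (x + a) * ch p (x + b) := by
  rw [← ch_mul, ← ch_mul]
  unfold ch
  simp

/-- three different linear factors are not a square -/
theorem not_sq {a b : ZMod p} (c : ZMod p)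
    (h : (ZMod p)[X]) : (X * (X + C a) * (X + C b) : (ZMod p)[X]) ≠ C c * h ^ 2 := by
  intro he
  have hdeg : (X * (X + C a) * (X + C b) : (ZMod p)[X]).natDegree = 3 := by
    have h1 : (X * (X + C a) * (X + C b) : (ZMod p)[X]).Monic :=
      (monic_X.mul (monic_X_add_C a)).mul (monic_X_add_C b)
    rw [(monic_X.mul (monic_X_add_C a)).natDegree_mul (monic_X_add_C b),
      monic_X.natDegree_mul (monic_X_add_C a), natDegree_X, natDegree_X_add_C, natDegree_X_add_C]
  have hc : c ≠ 0 := by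
    rintro rfl
    rw [he] at hdeg
    simp at hdeg
  rw [he, natDegree_C_mul hc, natDegree_pow] at hdeg
  omega

/-- the generic case, `p ≥ 11` -/
theorem generic (hp : 11 ≤ p) {a b : ZMod p} (ha : a ≠ 0) (hb : b ≠ 0) (hab : a ≠ b) :
    ∃ x : ZMod p, ch p x ≠ -1 ∧ ch p (x + a) ≠ -1 ∧ ch p (x + b) ≠ -1 := by
  have hp2 : p ≠ 2 := by omega
  by_contra hcon
  push Not at hcon
  have h0 : ∀ x : ZMod p, (1 + ch p x) * (1 + ch p (x + a)) * (1 + ch p (x + b)) = 0 := by
    intro x
    by_cases h1 : ch p x = -1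
    · rw [h1]; ring
    by_cases h2 : ch p (x + a) = -1
    · rw [h2]; ring
    · rw [hcon x h1 h2]; ring
  have h1 : ∑ x : ZMod p, (1 + ch p x) * (1 + ch p (x + a)) * (1 + ch p (x + b)) = 0 :=
    Finset.sum_eq_zero fun x _ => h0 x
  have hab2 : ∑ x : ZMod p, ch p (x + a) * ch p (x + b) = -1 := by
    rw [← sum_pair hp2 (a := b - a) (sub_ne_zero.2 (Ne.symm hab))]
    refine Fintype.sum_equiv (Equiv.addRight a) _ _ fun x => ?_
    simp only [Equiv.coe_addRight]
    congr 2
    ring
  have h2 : ∑ x : ZMod p, (1 + ch p x) * (1 + ch p (x + a)) * (1 + ch p (x + b)) =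
      (p : ℝ) - 3 + ∑ x : ZMod p, ch p x * ch p (x + a) * ch p (x + b) := by
    have e : ∀ x : ZMod p, (1 + ch p x) * (1 + ch p (x + a)) * (1 + ch p (x + b)) =
        1 + ch p x + ch p (x + a) + ch p (x + b) + ch p x * ch p (x + a) + ch p x * ch p (x + b) +
          ch p (x + a) * ch p (x + b) + ch p x * ch p (x + a) * ch p (x + b) := fun x => by ring
    rw [Finset.sum_congr rfl fun x _ => e x]
    simp only [Finset.sum_add_distrib]
    rw [sum_ch hp2, sum_ch_add hp2, sum_ch_add hp2, sum_pair hp2 ha, sum_pair hp2 hb, hab2]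
    simp only [sum_const, card_univ, ZMod.card, nsmul_eq_mul, mul_one]
    ring
  have h3 := Pool.Agent.H341R2.Sharp.weil_sharp (F := ZMod p)
    (by rw [ZMod.ringChar_zmod_n]; exact hp2) (X * (X + C a) * (X + C b))
    (by
      rw [(monic_X.mul (monic_X_add_C a)).natDegree_mul (monic_X_add_C b),
        monic_X.natDegree_mul (monic_X_add_C a), natDegree_X, natDegree_X_add_C,
        natDegree_X_add_C]
      norm_num) (fun c h => not_sq c h)
  rw [(monic_X.mul (monic_X_add_C a)).natDegree_mul (monic_X_add_C b),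
        monic_X.natDegree_mul (monic_X_add_C a), natDegree_X, natDegree_X_add_C,
        natDegree_X_add_C, ZMod.card] at h3
  have h4 : ∑ x : ZMod p, ch p x * ch p (x + a) * ch p (x + b) = 3 - p := by linarith
  have h5 : ∑ x : ZMod p,
      ((quadraticChar (ZMod p) ((X * (X + C a) * (X + C b) : (ZMod p)[X]).eval x) : ℤ) : ℝ) =
      3 - p := by
    rw [← h4]
    exact Finset.sum_congr rfl fun x _ => ch_poly a b x
  rw [h5] at h3
  have hp' : (11 : ℝ) ≤ p := by exact_mod_cast hp
  rw [abs_of_nonpos (by linarith)] at h3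
  push_cast at h3
  have hs := Real.sq_sqrt (show (0 : ℝ) ≤ p by positivity)
  have hs0 := Real.sqrt_nonneg (p : ℝ)
  nlinarith

/-- the degenerate case, `p ≥ 5` -/
theorem degen (hp : 5 ≤ p) {b : ZMod p} (hb : b ≠ 0) :
    ∃ x : ZMod p, ch p x = 1 ∧ ch p (x + b) ≠ -1 := by
  have hp2 : p ≠ 2 := by omega
  by_contra hcon
  push Not at hcon
  have h0 : ∀ x : ZMod p, x ≠ 0 → (1 + ch p x) * (1 + ch p (x + b)) = 0 := by
    intro x hx
    rcases ch_cases x with h | h | h
    · exact absurd (ch_eq_zero.1 h) hx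
    · rw [hcon x h]; ring
    · rw [h]; ring
  have h1 : ∑ x : ZMod p, (1 + ch p x) * (1 + ch p (x + b)) = (1 + ch p 0) * (1 + ch p (0 + b)) :=
    Finset.sum_eq_single_of_mem 0 (mem_univ _) fun x _ hx => h0 x hx
  have h2 : ∑ x : ZMod p, (1 + ch p x) * (1 + ch p (x + b)) = (p : ℝ) - 1 := by
    have e : ∀ x : ZMod p, (1 + ch p x) * (1 + ch p (x + b)) =
        1 + ch p x + ch p (x + b) + ch p x * ch p (x + b) := fun x => by ring
    rw [Finset.sum_congr rfl fun x _ => e x]
    simp only [Finset.sum_add_distrib]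
    rw [sum_ch hp2, sum_ch_add hp2, sum_pair hp2 hb]
    simp only [sum_const, card_univ, ZMod.card, nsmul_eq_mul, mul_one]
    ring
  have hp' : (5 : ℝ) ≤ p := by exact_mod_cast hp
  rw [h2, ch_zero] at h1
  rcases ch_cases (0 + b) with h | h | h <;> rw [h] at h1 <;> linarith

/-- `x` works for the differences `a`, `b` -/
def Good (a b x : ZMod p) : Prop :=
  IsSquare x ∧ IsSquare (x + a) ∧ IsSquare (x + b) ∧ ¬ (x = 0 ∧ x + a = 0) ∧
    ¬ (x = 0 ∧ x + b = 0) ∧ ¬ (x + a = 0 ∧ x + b = 0)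

theorem isSquare_of_ch {x : ZMod p} (h : ch p x ≠ -1) : IsSquare x := by
  by_cases hx : x = 0
  · rw [hx]; exact IsSquare.zero
  · by_contra hs
    apply h
    unfold ch
    rw [quadraticChar_neg_one_iff_not_isSquare.2 hs]
    norm_num

theorem good_ex (hp : 5 ≤ p) (a b : ZMod p) (hgen : a ≠ 0 → b ≠ 0 → a ≠ b →
    ∃ x : ZMod p, Good a b x) : ∃ x : ZMod p, Good a b x := by
  have h10 : (1 : ZMod p) ≠ 0 := one_ne_zero
  by_cases ha : a = 0
  · by_cases hb : b = 0
    · refine ⟨1, ?_⟩
      subst ha; subst hb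
      simp only [Good, add_zero]
      exact ⟨IsSquare.one, IsSquare.one, IsSquare.one, fun h => h10 h.1, fun h => h10 h.1,
        fun h => h10 h.1⟩
    · obtain ⟨x, hx, hxb⟩ := degen hp hb
      have hx0 : x ≠ 0 := by
        rintro rfl
        rw [ch_zero] at hx
        norm_num at hx
      have hs : IsSquare x := isSquare_of_ch (by rw [hx]; norm_num)
      refine ⟨x, ?_⟩
      subst ha
      simp only [Good, add_zero]
      exact ⟨hs, hs, isSquare_of_ch hxb, fun h => hx0 h.1, fun h => hx0 h.1, fun h => hx0 h.1⟩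
  · by_cases hb : b = 0
    · obtain ⟨x, hx, hxb⟩ := degen hp ha
      have hx0 : x ≠ 0 := by
        rintro rfl
        rw [ch_zero] at hx
        norm_num at hx
      have hs : IsSquare x := isSquare_of_ch (by rw [hx]; norm_num)
      refine ⟨x, ?_⟩
      subst hb
      simp only [Good, add_zero]
      exact ⟨hs, isSquare_of_ch hxb, hs, fun h => hx0 h.1, fun h => hx0 h.1, fun h => hx0 h.2⟩
    · by_cases hab : a = b
      · obtain ⟨y, hy, hyb⟩ := degen hp (neg_ne_zero.2 ha)
        have hy0 : y ≠ 0 := by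
          rintro rfl
          rw [ch_zero] at hy
          norm_num at hy
        have hs : IsSquare y := isSquare_of_ch (by rw [hy]; norm_num)
        refine ⟨y + -a, ?_⟩
        subst hab
        have e : y + -a + a = y := by ring
        simp only [Good, e]
        exact ⟨isSquare_of_ch hyb, hs, hs, fun h => hy0 h.2, fun h => hy0 h.2, fun h => hy0 h.1⟩
      · exact hgen ha hb hab

end

/-- the test modulo `5` -/
def G5 (a b x : ZMod 5) : Bool :=
  (decide (∃ y : ZMod 5, x = y * y)) && decide (∃ y : ZMod 5, x + a = y * y) && decide (∃ y : ZMod 5, x + b = y * y) &&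
  !(decide (x = 0) && decide (x + a = 0)) && !(decide (x = 0) && decide (x + b = 0)) && !(decide (x + a = 0) && decide (x + b = 0))

theorem five' : ∀ a b : ZMod 5, (decide ((a, b) = (1, 3)) || decide ((a, b) = (3, 1)) || decide ((a, b) = (2, 3)) ||
    decide ((a, b) = (3, 2)) || decide ((a, b) = (2, 4)) || decide ((a, b) = (4, 2))) = false → ∃ x : ZMod 5, G5 a b x = true := by
  decide +kernel

/-- the test modulo `7` -/
def G7 (a b x : ZMod 7) : Bool :=
  (decide (∃ y : ZMod 7, x = y * y)) && decide (∃ y : ZMod 7, x + a = y * y) && decide (∃ y : ZMod 7, x + b = y * y) &&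
  !(decide (x = 0) && decide (x + a = 0)) && !(decide (x = 0) && decide (x + b = 0)) && !(decide (x + a = 0) && decide (x + b = 0))

theorem seven' : ∀ a b : ZMod 7, (decide ((a, b) = (1, 5)) || decide ((a, b) = (5, 1)) || decide ((a, b) = (2, 3)) ||
    decide ((a, b) = (3, 2)) || decide ((a, b) = (4, 6)) || decide ((a, b) = (6, 4))) = false → ∃ x : ZMod 7, G7 a b x = true := by
  decide +kernel
theorem five : ∀ a b : ZMod 5, ¬ ((a, b) = (1, 3) ∨ (a, b) = (3, 1) ∨ (a, b) = (2, 3) ∨
    (a, b) = (3, 2) ∨ (a, b) = (2, 4) ∨ (a, b) = (4, 2)) → ∃ x : ZMod 5,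
    (∃ y, x = y * y) ∧ (∃ y, x + a = y * y) ∧ (∃ y, x + b = y * y) ∧ ¬ (x = 0 ∧ x + a = 0) ∧
    ¬ (x = 0 ∧ x + b = 0) ∧ ¬ (x + a = 0 ∧ x + b = 0) := by
  intro a b h
  obtain ⟨x, hx⟩ := five' a b (by
    rw [Bool.eq_false_iff]
    intro h'
    apply h
    simpa [or_assoc] using h')
  refine ⟨x, ?_⟩
  simpa [G5, and_assoc, -Bool.not_and] using hx

theorem seven : ∀ a b : ZMod 7, ¬ ((a, b) = (1, 5) ∨ (a, b) = (5, 1) ∨ (a, b) = (2, 3) ∨
    (a, b) = (3, 2) ∨ (a, b) = (4, 6) ∨ (a, b) = (6, 4)) → ∃ x : ZMod 7,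
    (∃ y, x = y * y) ∧ (∃ y, x + a = y * y) ∧ (∃ y, x + b = y * y) ∧ ¬ (x = 0 ∧ x + a = 0) ∧
    ¬ (x = 0 ∧ x + b = 0) ∧ ¬ (x + a = 0 ∧ x + b = 0) := by
  intro a b h
  obtain ⟨x, hx⟩ := seven' a b (by
    rw [Bool.eq_false_iff]
    intro h'
    apply h
    simpa [or_assoc] using h')
  refine ⟨x, ?_⟩
  simpa [G7, and_assoc, -Bool.not_and] using hx

theorem qres_of {p : ℕ} [Fact p.Prime] {r : ℕ} (h : IsSquare ((r : ℕ) : ZMod p)) :
    p ∣ r ∨ QRes p r := by
  by_cases hr : p ∣ r
  · exact Or.inl hr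
  · refine Or.inr ⟨hr, ?_⟩
    obtain ⟨y, hy⟩ := h
    refine ⟨y.val, ?_⟩
    rw [← ZMod.natCast_eq_natCast_iff]
    push_cast
    rw [ZMod.natCast_zmod_val, hy]
    ring

theorem pat : S_PAT := by
  intro p hp hp5 a b hexc
  haveI : Fact p.Prime := ⟨hp⟩
  have key : ∃ x : ZMod p, Good (a : ZMod p) (b : ZMod p) x := by
    refine good_ex hp5 _ _ fun ha hb hab => ?_
    by_cases h11 : 11 ≤ p
    · obtain ⟨x, h1, h2, h3⟩ := generic h11 ha hb hab
      refine ⟨x, isSquare_of_ch h1, isSquare_of_ch h2, isSquare_of_ch h3, ?_, ?_, ?_⟩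
      · rintro ⟨h4, h5⟩
        rw [h4, zero_add] at h5
        exact ha h5
      · rintro ⟨h4, h5⟩
        rw [h4, zero_add] at h5
        exact hb h5
      · rintro ⟨h4, h5⟩
        exact hab (add_left_cancel (h4.trans h5.symm))
    · have hcases : p = 5 ∨ p = 7 := by
        have : p < 11 := by omega
        interval_cases p
        · left; rfl
        · exact absurd hp (by norm_num)
        · right; rfl
        · exact absurd hp (by norm_num)
        · exact absurd hp (by norm_num)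
        · exact absurd hp (by norm_num)
      unfold Exc at hexc
      push Not at hexc
      obtain ⟨-, h5, h7⟩ := hexc
      rcases hcases with rfl | rfl
      · refine five _ _ ?_
        intro h
        apply h5
        have hv : ∀ (n : ℕ), ((n : ℕ) : ZMod 5).val = n % 5 := fun n => ZMod.val_natCast 5 n
        rcases h with h | h | h | h | h | h <;>
        · rw [Prod.ext_iff] at h
          have h1 := congrArg ZMod.val h.1
          have h2 := congrArg ZMod.val h.2
          simp only at h1 h2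
          rw [hv] at h1 h2
          rw [h1, h2]
          decide
      · refine seven _ _ ?_
        intro h
        apply h7
        have hv : ∀ (n : ℕ), ((n : ℕ) : ZMod 7).val = n % 7 := fun n => ZMod.val_natCast 7 n
        rcases h with h | h | h | h | h | h <;>
        · rw [Prod.ext_iff] at h
          have h1 := congrArg ZMod.val h.1
          have h2 := congrArg ZMod.val h.2
          simp only at h1 h2
          rw [hv] at h1 h2
          rw [h1, h2]
          decide
  obtain ⟨x, h1, h2, h3, h4, h5, h6⟩ := key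
  have hx : ((x.val : ℕ) : ZMod p) = x := ZMod.natCast_zmod_val x
  have hxa : ((x.val + a : ℕ) : ZMod p) = x + a := by push_cast; rw [hx]
  have hxb : ((x.val + b : ℕ) : ZMod p) = x + b := by push_cast; rw [hx]
  have hd : ∀ n : ℕ, p ∣ n ↔ ((n : ℕ) : ZMod p) = 0 := fun n => (ZMod.natCast_eq_zero_iff n p).symm
  refine ⟨x.val, qres_of (by rw [hx]; exact h1), qres_of (by rw [hxa]; exact h2),
    qres_of (by rw [hxb]; exact h3), ?_, ?_, ?_⟩
  · rintro ⟨h7, h8⟩
    rw [hd, hx] at h7
    rw [hd, hxa] at h8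
    exact h4 ⟨h7, h8⟩
  · rintro ⟨h7, h8⟩
    rw [hd, hx] at h7
    rw [hd, hxb] at h8
    exact h5 ⟨h7, h8⟩
  · rintro ⟨h7, h8⟩
    rw [hd, hxa] at h7
    rw [hd, hxb] at h8
    exact h6 ⟨h7, h8⟩

end Pool.Agent.H380.LT
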